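import Pool.Agent.MP_c2a681_co.H6.Family

set_option autoImplicit false

namespace Pool.Agent.MP_c2a681_co.H72

open Pool.Agent.MP_c2a681_co.H6 in
theorem core :
    ∀ u : ℕ → Bool,
      (∀ n : ℕ, u (2 * n) = false ∧ u (2 * n + 1) = !(u n)) →
      ∀ p : ℕ → ℕ,
        (∀ n : ℕ, IsLeast {k : ℕ | ∃ L : List (List Bool), L.length = k ∧
            (∀ w ∈ L, w.reverse = w) ∧
            L.flatten = List.ofFn (fun i : Fin n => u i.val)} (p n)) →
        ¬ (Submodule.span ℤ {f : ℕ → ℤ | ∃ e r : ℕ, r < 2 ^ e ∧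
            f = fun n : ℕ => ((p (2 ^ e * n + r) : ℕ) : ℤ)}).FG := by
  intro u hu p hp hfg
  have hchain : ∀ n, Chain u (p n) n := by
    intro n
    obtain ⟨L, h1, h2, h3⟩ := (hp n).1
    rw [← h1]
    exact chain_of_list u L n h2 h3
  have hle : ∀ k n, Chain u k n → p n ≤ k := by
    intro k n h
    exact (hp n).2 (list_of_chain h)
  set M := Submodule.span ℤ {f : ℕ → ℤ | ∃ e r : ℕ, r < 2 ^ e ∧
            f = fun n : ℕ => ((p (2 ^ e * n + r) : ℕ) : ℤ)} with hM
  let φ : (ℕ → ℤ) →ₗ[ℤ] (ℕ → ZMod 3) := (Int.castAddHom (ZMod 3)).toIntLinearMap.compLeft ℕ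
  have hfg' : (M.map φ).FG := hfg.map φ
  haveI : Module.Finite ℤ (M.map φ) := Module.Finite.iff_fg.2 hfg'
  haveI hfin : Finite (M.map φ) := by
    refine Module.finite_of_fg_torsion (M.map φ) ?_
    intro x
    refine ⟨⟨3, by simp⟩, ?_⟩
    apply Subtype.ext
    funext n
    have h3 : ∀ a : ZMod 3, (3 : ℤ) • a = 0 := by decide
    exact h3 _
  set K := Nat.card (M.map φ) with hK
  set q := 18 * K + 3 with hq
  have hr : ∀ t, W q 1 (t + 1) < 2 ^ (q * (t + 2)) := fun t =>
    W_lt (by omega) _ _ _ (fun i hi => Nat.mul_lt_mul_of_pos_left (by omega) (by omega))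
  let f : Fin (K + 1) → M.map φ := fun τ =>
    ⟨φ (fun n : ℕ => ((p (2 ^ (q * (3 * τ.val + 2)) * n + W q 1 (3 * τ.val + 1)) : ℕ) : ℤ)),
      Submodule.mem_map_of_mem (Submodule.subset_span ⟨_, _, hr _, rfl⟩)⟩
  have hinj : Function.Injective f := by
    intro a b hab
    by_contra hne
    have hne' : a.val ≠ b.val := fun h => hne (Fin.ext h)
    have h1 := congrFun (congrArg Subtype.val hab) (W q 0 (3 * a.val))
    have h2 : (((p (2 ^ (q * (3 * a.val + 2)) * W q 0 (3 * a.val) + W q 1 (3 * a.val + 1)) : ℕ) : ℤ)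
        : ZMod 3) = (((p (2 ^ (q * (3 * b.val + 2)) * W q 0 (3 * a.val) + W q 1 (3 * b.val + 1))
          : ℕ) : ℤ) : ZMod 3) := h1
    rw [W_shift, W_shift, add_comm (W q _ _), add_comm (W q (3 * b.val + 2) _), Int.cast_natCast,
      Int.cast_natCast, ZMod.natCast_eq_natCast_iff'] at h2
    have ha := a.isLt
    have hb := b.isLt
    have u1 := hle _ _ (upper_diag hu (q := q) (by omega) (3 * a.val))
    have l1 := (lower hu (q := q) (s := 3 * a.val) (t := 3 * a.val) (by omega) (by omega) (by omega)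
      (by omega) (hchain _)).1
    have u2 := hle _ _ (upper_all hu (q := q) (by omega) (3 * a.val) (3 * b.val))
    have l2 : 3 * a.val + 3 * b.val <
        p (W q 1 (3 * b.val + 1) + W q (3 * b.val + 2) (3 * b.val + 2 + 3 * a.val)) := by
      by_contra hc
      have := (lower hu (q := q) (s := 3 * a.val) (t := 3 * b.val) (by omega) (by omega) (by omega)
        (by omega) (hchain _)).2
      omega
    omega
  have := Nat.card_le_card_of_injective f hinj
  rw [Nat.card_eq_fintype_card, Fintype.card_fin] at this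
  omega

end Pool.Agent.MP_c2a681_co.H72
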